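import Pool.Agent.Q98.DF.Fac
import Pool.Agent.H185.ZM.Euc

/-!
# `SL(n,ℤ)`, `n ≥ 3`, is not a product of two noncentral commuting subgroups
-/

set_option autoImplicit false

namespace Pool.Agent.Q98.DF

open Function Matrix Pool.Agent.H185.ZM
open scoped commutatorElement

/-- `SL(n,ℤ)` -/
abbrev SLZ (n : ℕ) : Type := Matrix.SpecialLinearGroup (Fin n) ℤ

variable {n : ℕ}

lemma single_smul' (i j : Fin n) (s : ℤ) :
    (single i j s : Matrix (Fin n) (Fin n) ℤ) = s • single i j 1 := by
  ext a b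
  simp [single_apply]

/-- commuting with `1 + s E_ij`, `s ≠ 0`, means commuting with `E_ij` -/
lemma comm_single {i j : Fin n} {M : Matrix (Fin n) (Fin n) ℤ} {s : ℤ} (hs : s ≠ 0)
    (h : (1 + single i j s) * M = M * (1 + single i j s)) :
    single i j (1 : ℤ) * M = M * single i j 1 := by
  rw [add_mul, mul_add, one_mul, mul_one, add_right_inj, single_smul', smul_mul_assoc,
    mul_smul_comm] at h
  exact smul_right_injective _ hs h

lemma comm_el {b : SLZ n} {i j : Fin n} (h : i ≠ j) {s : ℤ} (hs : s ≠ 0)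
    (hb : el h s * b = b * el h s) (r : ℤ) : el h r * b = b * el h r := by
  have h1 := congrArg Subtype.val hb
  simp only [Matrix.SpecialLinearGroup.coe_mul, el_coe] at h1
  have h2 := comm_single hs h1
  apply Subtype.ext
  simp only [Matrix.SpecialLinearGroup.coe_mul, el_coe]
  rw [add_mul, mul_add, one_mul, mul_one, single_smul', smul_mul_assoc, mul_smul_comm, h2]

lemma central_of_comm {b : SLZ n} (h : ∀ (i j : Fin n) (h : i ≠ j) (r : ℤ),
    el h r * b = b * el h r) : b ∈ Subgroup.center (SLZ n) := by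
  rw [Subgroup.mem_center_iff]
  intro g
  have h1 : EE n ℤ ≤ Subgroup.centralizer {b} := by
    rw [EE, Subgroup.closure_le]
    rintro _ ⟨i, j, hij, c, rfl⟩
    rw [SetLike.mem_coe, Subgroup.mem_centralizer_iff]
    rintro _ rfl
    exact (h i j hij c).symm
  rw [EE_eq_top] at h1
  have h2 := h1 (Subgroup.mem_top g)
  rw [Subgroup.mem_centralizer_iff] at h2
  exact (h2 b rfl).symm

lemma sq_center (hn : 3 ≤ n) {z : SLZ n} (hz : z ∈ Subgroup.center (SLZ n)) : z * z = 1 := by
  obtain ⟨r, hr, hz'⟩ := Matrix.SpecialLinearGroup.mem_center_iff.1 hz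
  rw [Fintype.card_fin] at hr
  have hu : IsUnit r := IsUnit.of_pow_eq_one hr (by omega)
  have h2 : r * r = 1 := by
    rcases Int.isUnit_iff.1 hu with h | h <;> rw [h] <;> norm_num
  apply Subtype.ext
  rw [Matrix.SpecialLinearGroup.coe_mul, ← hz', ← map_mul, h2, map_one,
    Matrix.SpecialLinearGroup.coe_one]

/-- **commuting subgroups that generate `SL(n,ℤ)`** -/
theorem dec_SLZ (hn : 3 ≤ n) (A B : Subgroup (SLZ n)) (hc : ∀ a ∈ A, ∀ b ∈ B, a * b = b * a)
    (hg : ∀ g, ∃ a ∈ A, ∃ b ∈ B, a * b = g) :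
    A ≤ Subgroup.center (SLZ n) ∨ B ≤ Subgroup.center (SLZ n) := by
  haveI hA : A.Normal := by
    refine ⟨fun x hx g => ?_⟩
    obtain ⟨a, ha, b, hb, rfl⟩ := hg g
    have : a * b * x * (a * b)⁻¹ = a * x * a⁻¹ := by
      have h1 := hc x hx b hb
      calc a * b * x * (a * b)⁻¹ = a * (b * x) * b⁻¹ * a⁻¹ := by group
        _ = a * x * a⁻¹ := by rw [← h1]; group
    rw [this]
    exact A.mul_mem (A.mul_mem ha hx) (A.inv_mem ha)
  haveI hB : B.Normal := by
    refine ⟨fun x hx g => ?_⟩
    obtain ⟨a, ha, b, hb, rfl⟩ := hg g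
    have h0 : b * x * b⁻¹ ∈ B := B.mul_mem (B.mul_mem hb hx) (B.inv_mem hb)
    have : a * b * x * (a * b)⁻¹ = b * x * b⁻¹ := by
      have h1 := hc a ha _ h0
      calc a * b * x * (a * b)⁻¹ = a * (b * x * b⁻¹) * a⁻¹ := by group
        _ = b * x * b⁻¹ := by rw [h1]; group
    rw [this]
    exact h0
  obtain ⟨m, rfl⟩ : ∃ m, n = m + 3 := ⟨n - 3, by omega⟩
  have h01 : (0 : Fin (m + 3)) ≠ 1 := by simp [Fin.ext_iff]
  have h12 : (1 : Fin (m + 3)) ≠ 2 := by
    apply Fin.ne_of_val_ne
    show 1 % (m + 3) ≠ 2 % (m + 3)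
    rw [Nat.mod_eq_of_lt (by omega), Nat.mod_eq_of_lt (by omega)]
    omega
  have h02 : (0 : Fin (m + 3)) ≠ 2 := by
    apply Fin.ne_of_val_ne
    show 0 % (m + 3) ≠ 2 % (m + 3)
    rw [Nat.mod_eq_of_lt (by omega), Nat.mod_eq_of_lt (by omega)]
    omega
  obtain ⟨a, ha, b, hb, hab⟩ := hg (el h01 1)
  -- `a` commutes with `E_ij`
  have key : ∀ (i j : Fin (m + 3)), i ≠ j → j ≠ 0 → i ≠ 1 →
      single i j (1 : ℤ) * a.1 = a.1 * single i j 1 := by
    intro i j hij hj hi
    have hx : el hij (1 : ℤ) * el h01 1 = el h01 1 * el hij 1 := el_commute hij h01 hj hi 1 1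
    obtain ⟨u, hu, v, hv, huv⟩ := hg (el hij 1)
    have e1 : u * a * (v * b) = a * u * (b * v) := by
      rw [← hab, ← huv] at hx
      calc u * a * (v * b) = u * (a * v) * b := by group
        _ = u * v * (a * b) := by rw [hc a ha v hv]; group
        _ = a * b * (u * v) := hx
        _ = a * (b * u) * v := by group
        _ = a * u * (b * v) := by rw [← hc u hu b hb]; group
    set z := (a * u)⁻¹ * (u * a) with hz
    have hzA : z ∈ A := A.mul_mem (A.inv_mem (A.mul_mem ha hu)) (A.mul_mem hu ha)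
    have hz2 : z = b * v * (v * b)⁻¹ := by
      rw [hz, eq_mul_inv_iff_mul_eq, mul_assoc, e1]
      group
    have hzB : z ∈ B := by
      rw [hz2]
      exact B.mul_mem (B.mul_mem hb hv) (B.inv_mem (B.mul_mem hv hb))
    have hzc : z ∈ Subgroup.center (SLZ (m + 3)) := by
      rw [Subgroup.mem_center_iff]
      intro g
      obtain ⟨a', ha', b', hb', rfl⟩ := hg g
      calc a' * b' * z = a' * (b' * z) := by group
        _ = (a' * z) * b' := by rw [← hc z hzA b' hb']; group
        _ = z * (a' * b') := by rw [hc a' ha' z hzB]; group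
    have hzz := sq_center hn hzc
    have hzc' := Subgroup.mem_center_iff.1 hzc
    have e2 : el hij 1 * a = a * el hij 1 * z := by
      rw [← huv]
      calc u * v * a = u * (v * a) := by group
        _ = u * a * v := by rw [← hc a ha v hv]; group
        _ = a * u * z * v := by rw [hz]; group
        _ = a * u * (z * v) := by group
        _ = a * (u * v) * z := by rw [← hzc' v]; group
    have e3 : el hij 2 * a = a * el hij 2 := by
      have : el hij (2 : ℤ) = el hij 1 * el hij 1 := by
        rw [← el_add]; norm_num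
      rw [this]
      calc el hij 1 * el hij 1 * a = el hij 1 * (el hij 1 * a) := by group
        _ = el hij 1 * (a * el hij 1 * z) := by rw [e2]
        _ = (el hij 1 * a) * (el hij 1 * z) := by group
        _ = (a * el hij 1 * z) * (el hij 1 * z) := by rw [e2]
        _ = a * el hij 1 * (z * el hij 1) * z := by group
        _ = a * el hij 1 * (el hij 1 * z) * z := by rw [← hzc' (el hij 1)]
        _ = a * (el hij 1 * el hij 1) * (z * z) := by group
        _ = a * (el hij 1 * el hij 1) := by rw [hzz, mul_one]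
    have e4 := congrArg Subtype.val e3
    simp only [Matrix.SpecialLinearGroup.coe_mul, el_coe] at e4
    exact comm_single two_ne_zero e4
  have ent : ∀ (i j : Fin (m + 3)), i ≠ j → j ≠ 0 → i ≠ 1 →
      (∀ k, k ≠ i → a.1 k i = 0) ∧ (∀ l, l ≠ j → a.1 j l = 0) ∧ a.1 i i = a.1 j j := by
    intro i j hij hj hi
    have h := key i j hij hj hi
    have h' : ∀ k l, (single i j (1 : ℤ) * a.1 : Matrix (Fin (m + 3)) (Fin (m + 3)) ℤ) k l
        = (a.1 * single i j 1 : Matrix (Fin (m + 3)) (Fin (m + 3)) ℤ) k l :=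
      fun k l => by rw [h]
    refine ⟨fun k hk => ?_, fun l hl => ?_, ?_⟩
    · have := h' k j
      rw [Matrix.single_mul_apply_of_ne _ _ _ _ _ hk] at this
      simpa using this.symm
    · have := h' i l
      rw [Matrix.mul_single_apply_of_ne _ _ _ _ _ hl] at this
      simpa using this
    · have := h' i j
      simpa using this.symm
  set lam := a.1 0 0 with hlam
  set c := a.1 0 1 with hcc
  have hM : a.1 = lam • (1 : Matrix (Fin (m + 3)) (Fin (m + 3)) ℤ) + single 0 1 c := by
    ext k l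
    rw [Matrix.add_apply, Matrix.smul_apply, smul_eq_mul]
    by_cases hkl : k = l
    · subst hkl
      rw [Matrix.one_apply_eq, mul_one, single_apply, if_neg, add_zero]
      · by_cases hk : k = 0
        · rw [hk]
        · exact ((ent 0 k (Ne.symm hk) hk h01).2.2).symm
      · rintro ⟨rfl, h⟩
        exact h01 h.symm
    · rw [Matrix.one_apply_ne hkl, mul_zero, zero_add, single_apply]
      by_cases h2 : 0 = k ∧ 1 = l
      · rw [if_pos h2, ← h2.1, ← h2.2]
      · rw [if_neg h2]
        by_cases hl : l = 1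
        · have hk : k ≠ 0 := fun hk => h2 ⟨hk.symm, hl.symm⟩
          exact (ent 0 k (Ne.symm hk) hk h01).2.1 l (Ne.symm hkl)
        · by_cases hl2 : l = 2
          · exact (ent l 1 hl (Ne.symm h01) hl).1 k hkl
          · exact (ent l 2 hl2 (Ne.symm h02) hl).1 k hkl
  have hlam2 : lam * lam = 1 := by
    have h1 : (a * a⁻¹).1 2 2 = 1 := by rw [mul_inv_cancel]; simp
    rw [Matrix.SpecialLinearGroup.coe_mul, hM, add_mul, Matrix.add_apply, smul_mul_assoc,
      one_mul, Matrix.smul_apply, smul_eq_mul,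
      Matrix.single_mul_apply_of_ne _ _ _ _ _ (Ne.symm h02), add_zero] at h1
    have hu : IsUnit lam := IsUnit.of_mul_eq_one _ h1
    rcases Int.isUnit_iff.1 hu with h | h <;> rw [h] <;> norm_num
  by_cases hc0 : c = 0
  · -- `a` is central
    left
    have hcen : ∀ g : SLZ (m + 3), a * g = g * a := by
      intro g
      apply Subtype.ext
      rw [Matrix.SpecialLinearGroup.coe_mul, Matrix.SpecialLinearGroup.coe_mul, hM, hc0,
        single_zero, add_zero, smul_mul_assoc, mul_smul_comm, one_mul, mul_one]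
    have hin : el h02 (1 : ℤ) ∈ B := by
      have h1 := comm_mem B hb (y := el h12 (1 : ℤ))
      have h2 : b = a⁻¹ * el h01 1 := by rw [← hab]; group
      have h3 : b * el h12 (1 : ℤ) * b⁻¹ * (el h12 (1 : ℤ))⁻¹
          = el h01 (1 : ℤ) * el h12 1 * (el h01 (1 : ℤ))⁻¹ * (el h12 (1 : ℤ))⁻¹ := by
        rw [h2]
        have h4 := hcen (el h01 (1 : ℤ) * el h12 1 * (el h01 (1 : ℤ))⁻¹)
        calc a⁻¹ * el h01 1 * el h12 1 * (a⁻¹ * el h01 1)⁻¹ * (el h12 (1 : ℤ))⁻¹
            = a⁻¹ * (el h01 (1 : ℤ) * el h12 1 * (el h01 (1 : ℤ))⁻¹ * a) * (el h12 (1 : ℤ))⁻¹ := by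
              group
          _ = _ := by rw [← h4]; group
      rw [h3, el_comm_eq h01 h12 h02] at h1
      simpa using h1
    intro x hx
    apply central_of_comm
    intro i j hij r
    refine comm_el hij one_ne_zero ?_ r
    have h1 := all_mem B (by omega) h02 hin i j hij 1
    rw [mul_one] at h1
    exact (hc x hx _ h1).symm
  · right
    have hin : el h02 (c * lam) ∈ A := by
      have h1 := comm_mem A ha (y := el h12 (1 : ℤ))
      have h2 : a * el h12 (1 : ℤ) = el h02 (c * lam) * (el h12 1 * a) := by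
        apply Subtype.ext
        simp only [Matrix.SpecialLinearGroup.coe_mul, el_coe]
        rw [hM]
        have e1 : (single 0 2 (c * lam) : Matrix (Fin (m + 3)) (Fin (m + 3)) ℤ) * lam • 1
            = single 0 2 c := by
          rw [mul_smul_comm, mul_one]
          ext k l
          rw [Matrix.smul_apply, single_apply, single_apply, smul_eq_mul]
          split_ifs
          · rw [mul_comm c, ← mul_assoc, hlam2, one_mul]
          · rw [mul_zero]
        have e2 : (single 0 2 (c * lam) : Matrix (Fin (m + 3)) (Fin (m + 3)) ℤ) * single 1 2 1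
            = 0 := Matrix.single_mul_single_of_ne _ _ _ _ (Ne.symm h12) _
        have e3 : (single 0 2 (c * lam) : Matrix (Fin (m + 3)) (Fin (m + 3)) ℤ) * single 0 1 c
            = 0 := Matrix.single_mul_single_of_ne _ _ _ _ (Ne.symm h02) _
        have e4 : (single 1 2 1 : Matrix (Fin (m + 3)) (Fin (m + 3)) ℤ) * single 0 1 c
            = 0 := Matrix.single_mul_single_of_ne _ _ _ _ (Ne.symm h02) _
        have e5 : (single 0 1 c : Matrix (Fin (m + 3)) (Fin (m + 3)) ℤ) * single 1 2 1
            = single 0 2 c := by rw [Matrix.single_mul_single_same, mul_one]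
        have e6 : (lam • 1 + single 0 1 c : Matrix (Fin (m + 3)) (Fin (m + 3)) ℤ)
            * (1 + single 1 2 1) = lam • 1 + lam • single 1 2 1 + single 0 1 c + single 0 2 c := by
          rw [add_mul, mul_add, mul_add, mul_one, mul_one, e5, smul_mul_assoc, one_mul]
          abel
        have e7 : (1 + single 1 2 1 : Matrix (Fin (m + 3)) (Fin (m + 3)) ℤ)
            * (lam • 1 + single 0 1 c) = lam • 1 + lam • single 1 2 1 + single 0 1 c := by
          rw [add_mul, mul_add, mul_add, one_mul, one_mul, e4, mul_smul_comm, mul_one]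
          abel
        rw [e6, e7, add_mul, one_mul, mul_add, mul_add, e1, e3, mul_smul_comm, e2]
        simp
      have h3 : a * el h12 (1 : ℤ) * a⁻¹ * (el h12 (1 : ℤ))⁻¹ = el h02 (c * lam) := by
        rw [h2]; group
      rwa [h3] at h1
    have hs : c * lam ≠ 0 := by
      intro h
      rcases mul_eq_zero.1 h with h | h
      · exact hc0 h
      · rw [h] at hlam2
        norm_num at hlam2
    intro x hx
    apply central_of_comm
    intro i j hij r
    refine comm_el hij hs ?_ r
    have h1 := all_mem A (by omega) h02 hin i j hij 1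
    rw [mul_one] at h1
    exact hc _ h1 x hx

theorem perf_SLZ (hn : 3 ≤ n) : commutator (SLZ n) = ⊤ := by
  rw [eq_top_iff, ← EE_eq_top, EE, Subgroup.closure_le]
  rintro _ ⟨i, j, hij, c, rfl⟩
  obtain ⟨k, hk1, hk2⟩ : ∃ k : Fin n, k ≠ i ∧ k ≠ j := by
    have h1 : ({i, j} : Finset (Fin n)).card < Fintype.card (Fin n) := by
      rw [Fintype.card_fin]
      exact lt_of_le_of_lt Finset.card_le_two (by omega)
    obtain ⟨k, hk⟩ := Finset.exists_mem_notMem_of_card_lt_card
      (s := {i, j}) (t := Finset.univ) (by simpa using h1)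
    have h2 := hk.2
    simp only [Finset.mem_insert, Finset.mem_singleton, not_or] at h2
    exact ⟨k, h2⟩
  have h1 := el_comm_eq (Ne.symm hk1) hk2 hij c (1 : ℤ)
  rw [mul_one] at h1
  rw [← h1]
  exact Subgroup.commutator_mem_commutator (Subgroup.mem_top _) (Subgroup.mem_top _)

theorem fg_SLZ (n : ℕ) : Group.FG (SLZ n) := by
  classical
  let S : Set (SLZ n) := Set.range (fun p : {p : Fin n × Fin n // p.1 ≠ p.2} => el p.2 (1 : ℤ))
  have hS : Subgroup.closure S = ⊤ := by
    rw [eq_top_iff, ← EE_eq_top, EE, Subgroup.closure_le]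
    rintro _ ⟨i, j, hij, c, rfl⟩
    rw [SetLike.mem_coe]
    have h1 : el hij (1 : ℤ) ∈ Subgroup.closure S :=
      Subgroup.subset_closure ⟨⟨(i, j), hij⟩, rfl⟩
    induction c using Int.induction_on with
    | zero => rw [el_zero]; exact Subgroup.one_mem _
    | succ k ih => rw [el_add]; exact Subgroup.mul_mem _ ih h1
    | pred k ih =>
      rw [sub_eq_add_neg, el_add]
      refine Subgroup.mul_mem _ ih ?_
      rw [← el_inv]
      exact Subgroup.inv_mem _ h1
  rw [Group.fg_iff]
  exact ⟨S, hS, Set.finite_range _⟩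

theorem rf_SLZ (n : ℕ) : RF (SLZ n) := by
  intro g hg
  obtain ⟨i, j, hij⟩ : ∃ i j, g.1 i j ≠ (1 : Matrix (Fin n) (Fin n) ℤ) i j := by
    by_contra h
    push Not at h
    exact hg (Subtype.ext (by ext i j; exact h i j))
  set d := g.1 i j - (1 : Matrix (Fin n) (Fin n) ℤ) i j with hd
  have hd0 : d ≠ 0 := sub_ne_zero.2 hij
  haveI : NeZero (d.natAbs + 1) := ⟨by omega⟩
  let φ := Matrix.SpecialLinearGroup.map (n := Fin n) (Int.castRingHom (ZMod (d.natAbs + 1)))
  refine ⟨φ.ker, ?_, ?_⟩
  · rw [Subgroup.index_ker]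
    exact Nat.card_pos.ne'
  · intro h
    rw [MonoidHom.mem_ker] at h
    have h1 : ((g.1 i j : ℤ) : ZMod (d.natAbs + 1))
        = (((1 : Matrix (Fin n) (Fin n) ℤ) i j : ℤ) : ZMod (d.natAbs + 1)) := by
      have h2 := congrArg (fun x : Matrix.SpecialLinearGroup (Fin n) (ZMod (d.natAbs + 1)) =>
        x.1 i j) h
      have h3 : (1 : Matrix (Fin n) (Fin n) (ZMod (d.natAbs + 1))) i j
        = (((1 : Matrix (Fin n) (Fin n) ℤ) i j : ℤ) : ZMod (d.natAbs + 1)) := by
        rw [Matrix.one_apply, Matrix.one_apply]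
        split_ifs <;> simp
      rw [← h3]
      exact h2
    rw [ZMod.intCast_eq_intCast_iff_dvd_sub] at h1
    have h4 : ((d.natAbs + 1 : ℕ) : ℤ) ∣ d := by
      rw [hd]
      have := (dvd_neg).2 h1
      rwa [neg_sub] at this
    have h5 := Int.natAbs_dvd_natAbs.2 h4
    rw [Int.natAbs_natCast] at h5
    have h6 := Nat.le_of_dvd (Int.natAbs_pos.2 hd0) h5
    omega

theorem good_SLZ (hn : 3 ≤ n) : Good (SLZ n) where
  dec := dec_SLZ hn
  perf := perf_SLZ hn
  hopf := hopf (fg_SLZ n) (rf_SLZ n) (SameFQ.refl _)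
  fin := by
    refine ⟨Matrix.SpecialLinearGroup (Fin n) (ZMod 2), inferInstance, inferInstance,
      Matrix.SpecialLinearGroup.map (Int.castRingHom (ZMod 2)), ?_⟩
    intro h
    have hij : (⟨0, by omega⟩ : Fin n) ≠ ⟨1, by omega⟩ := by simp
    have h1 := congrArg (fun f => (f (el hij (1 : ℤ))).1 ⟨0, by omega⟩ ⟨1, by omega⟩) h
    simp [el_coe, Matrix.SpecialLinearGroup.map_apply_coe] at h1

end Pool.Agent.Q98.DF
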