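import Pool.Agent.Q98.DF.Gen

/-!
# Counting the direct factors isomorphic to a given group
-/

set_option autoImplicit false

namespace Pool.Agent.Q98.DF

open Function
open scoped commutatorElement

/-- a direct factor `Γ` of `G`: section, projection, the section commutes with the kernel -/
structure Split (Γ G : Type) [Group Γ] [Group G] where
  /-- the section -/
  s : Γ →* G
  /-- the projection -/
  p : G →* Γ
  ps : ∀ γ, p (s γ) = γ
  comm : ∀ γ x, p x = 1 → s γ * x = x * s γ

/-- the direct factors of `G` isomorphic to `Γ` -/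
def factors (Γ G : Type) [Group Γ] [Group G] : Set (Subgroup G) :=
  {M | ∃ d : Split Γ G, d.s.range = M}

/-- what is needed of `Γ` -/
structure Good (Γ : Type) [Group Γ] : Prop where
  dec : ∀ (A B : Subgroup Γ), (∀ a ∈ A, ∀ b ∈ B, a * b = b * a) →
    (∀ g, ∃ a ∈ A, ∃ b ∈ B, a * b = g) → A ≤ Subgroup.center Γ ∨ B ≤ Subgroup.center Γ
  perf : commutator Γ = ⊤
  hopf : ∀ f : Γ →* Γ, Surjective f → Injective f
  fin : ∃ (F : Type) (_ : Group F) (_ : Finite F) (φ : Γ →* F), φ ≠ 1

lemma perf_trivial {X H : Type} [Group X] [Group H] (hp : commutator X = ⊤) (θ : X →* H)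
    (h : ∀ a b, θ a * θ b = θ b * θ a) (x : X) : θ x = 1 := by
  have h1 : commutator X ≤ θ.ker := by
    rw [commutator_def, Subgroup.commutator_le]
    intro a _ b _
    rw [MonoidHom.mem_ker, map_commutatorElement, commutatorElement_eq_one_iff_mul_comm]
    exact h a b
  rw [hp] at h1
  exact h1 (Subgroup.mem_top x)

section split

variable {Γ : Type} [Group Γ]

lemma central_or {G X Y : Type} [Group G] [Group X] [Group Y] (hΓ : Good Γ) (f : G →* Γ)
    (hf : Surjective f) (α : X →* G) (β : Y →* G) (hc : ∀ x y, α x * β y = β y * α x)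
    (hg : ∀ g, ∃ x y, α x * β y = g) :
    (∀ x, f (α x) ∈ Subgroup.center Γ) ∨ (∀ y, f (β y) ∈ Subgroup.center Γ) := by
  have hd : (f.comp α).range ≤ Subgroup.center Γ ∨ (f.comp β).range ≤ Subgroup.center Γ := by
    apply hΓ.dec
    · rintro _ ⟨x, rfl⟩ _ ⟨y, rfl⟩
      simp only [MonoidHom.comp_apply]
      rw [← map_mul, ← map_mul, hc]
    · intro γ
      obtain ⟨g, rfl⟩ := hf γ
      obtain ⟨x, y, rfl⟩ := hg g
      exact ⟨f (α x), ⟨x, rfl⟩, f (β y), ⟨y, rfl⟩, (map_mul f _ _).symm⟩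
  rcases hd with h | h
  · exact Or.inl fun x => h ⟨x, rfl⟩
  · exact Or.inr fun y => h ⟨y, rfl⟩

lemma comm_central {a b u v : Γ} (hu : ∀ g, g * u = u * g) (hv : ∀ g, g * v = v * g) :
    ⁅a * u, b * v⁆ = ⁅a, b⁆ := by
  rw [commutatorElement_def, commutatorElement_def, mul_inv_eq_iff_eq_mul,
    mul_inv_eq_iff_eq_mul]
  calc a * u * (b * v) = a * (u * b) * v := by group
    _ = a * b * (u * v) := by rw [← hu b]; group
    _ = a * b * (v * u) := by rw [hu v]
    _ = a * b * (a⁻¹ * (a * v)) * u := by group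
    _ = a * b * (a⁻¹ * (v * a)) * u := by rw [hv a]
    _ = a * b * a⁻¹ * b⁻¹ * (b * v) * (a * u) := by group

lemma surj_of_central {G X Y : Type} [Group G] [Group X] [Group Y] (hΓ : Good Γ) (f : G →* Γ)
    (hf : Surjective f) (α : X →* G) (β : Y →* G)
    (hg : ∀ g, ∃ x y, α x * β y = g) (h : ∀ y, f (β y) ∈ Subgroup.center Γ) :
    Surjective (f.comp α) := by
  rw [← MonoidHom.range_eq_top, eq_top_iff, ← hΓ.perf, commutator_def, Subgroup.commutator_le]
  intro a _ b _
  obtain ⟨g, rfl⟩ := hf a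
  obtain ⟨g', rfl⟩ := hf b
  obtain ⟨x, y, rfl⟩ := hg g
  obtain ⟨x', y', rfl⟩ := hg g'
  have h1 := Subgroup.mem_center_iff.1 (h y)
  have h2 := Subgroup.mem_center_iff.1 (h y')
  refine ⟨⁅x, x'⁆, ?_⟩
  rw [map_commutatorElement]
  simp only [MonoidHom.comp_apply, map_mul]
  exact (comm_central h1 h2).symm

lemma triv_or {G X Y : Type} [Group G] [Group X] [Group Y] (hΓ : Good Γ)
    (hX : commutator X = ⊤) (f : G →* Γ)
    (hf : Surjective f) (α : X →* G) (β : Y →* G) (hc : ∀ x y, α x * β y = β y * α x)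
    (hg : ∀ g, ∃ x y, α x * β y = g) :
    (∀ x, f (α x) = 1) ∨
      (Surjective (f.comp α) ∧ ∀ y, f (β y) ∈ Subgroup.center Γ) := by
  rcases central_or hΓ f hf α β hc hg with h | h
  · left
    intro x
    exact perf_trivial hX (f.comp α) (fun a b => (Subgroup.mem_center_iff.1 (h b)) _) x
  · exact Or.inr ⟨surj_of_central hΓ f hf α β hg h, h⟩

variable {G : Type} [Group G]

lemma Split.surj (d : Split Γ G) : Surjective d.p := fun γ => ⟨d.s γ, d.ps γ⟩

lemma Split.dec (d : Split Γ G) (g : G) : ∃ (x : Γ) (y : d.p.ker), d.s x * (d.p.ker.subtype y) = g :=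
  ⟨d.p g, ⟨(d.s (d.p g))⁻¹ * g, by rw [MonoidHom.mem_ker, map_mul, map_inv, d.ps, inv_mul_cancel]⟩,
    by simp⟩

/-- conjugates of the factor stay in the factor -/
lemma Split.conj (d : Split Γ G) (g : G) (γ : Γ) :
    g * d.s γ * g⁻¹ = d.s (d.p g * γ * (d.p g)⁻¹) := by
  have h1 := d.comm γ ((d.s (d.p g))⁻¹ * g)
    (by rw [map_mul, map_inv, d.ps, inv_mul_cancel])
  rw [map_mul, map_mul, map_inv, mul_inv_eq_iff_eq_mul]
  calc g * d.s γ = d.s (d.p g) * ((d.s (d.p g))⁻¹ * g * d.s γ) := by group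
    _ = d.s (d.p g) * (d.s γ * ((d.s (d.p g))⁻¹ * g)) := by rw [h1]
    _ = d.s (d.p g) * d.s γ * (d.s (d.p g))⁻¹ * g := by group

/-- **two factors are equal or independent** -/
lemma Split.eq_or (hΓ : Good Γ) (d d' : Split Γ G) :
    (∀ γ, d.p (d'.s γ) = 1) ∨ d.s.range = d'.s.range := by
  rcases triv_or hΓ hΓ.perf d.p d.surj d'.s d'.p.ker.subtype
    (fun x y => d'.comm x y y.2) d'.dec with h | ⟨h, _⟩
  · exact Or.inl h
  right
  have hinj := hΓ.hopf _ h
  -- `s' γ` commutes with `ker p`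
  have c1 : ∀ γ k, d.p k = 1 → d'.s γ * k = k * d'.s γ := by
    intro γ k hk
    have e1 := d'.conj k γ
    have e2 : (d.p.comp d'.s) (d'.p k * γ * (d'.p k)⁻¹) = (d.p.comp d'.s) γ := by
      rw [MonoidHom.comp_apply, ← e1, map_mul, map_mul, map_inv, hk]
      simp
    rw [hinj e2, mul_inv_eq_iff_eq_mul] at e1
    exact e1.symm
  let κ : Γ → G := fun γ => (d.s (d.p (d'.s γ)))⁻¹ * d'.s γ
  have k1 : ∀ γ, d.p (κ γ) = 1 := fun γ => by
    show d.p ((d.s (d.p (d'.s γ)))⁻¹ * d'.s γ) = 1
    rw [map_mul, map_inv, d.ps, inv_mul_cancel]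
  have k2 : ∀ γ k, d.p k = 1 → κ γ * k = k * κ γ := by
    intro γ k hk
    have e1 := d.comm (d.p (d'.s γ)) k hk
    have e2 := c1 γ k hk
    show (d.s (d.p (d'.s γ)))⁻¹ * d'.s γ * k = k * ((d.s (d.p (d'.s γ)))⁻¹ * d'.s γ)
    rw [mul_assoc, e2, ← mul_assoc, ← mul_assoc]
    congr 1
    rw [inv_mul_eq_iff_eq_mul, ← mul_assoc, e1, mul_assoc, mul_inv_cancel, mul_one]
  let θ : Γ →* G :=
    { toFun := κ
      map_one' := by show (d.s (d.p (d'.s 1)))⁻¹ * d'.s 1 = 1; simp
      map_mul' := by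
        intro a b
        show (d.s (d.p (d'.s (a * b))))⁻¹ * d'.s (a * b) = κ a * κ b
        have e1 := d.comm (d.p (d'.s b)) (κ a) (k1 a)
        have e2 : (d.s (d.p (d'.s b)))⁻¹ * κ a = κ a * (d.s (d.p (d'.s b)))⁻¹ := by
          rw [inv_mul_eq_iff_eq_mul, ← mul_assoc, e1, mul_assoc, mul_inv_cancel, mul_one]
        calc (d.s (d.p (d'.s (a * b))))⁻¹ * d'.s (a * b)
            = (d.s (d.p (d'.s b)))⁻¹ * ((d.s (d.p (d'.s a)))⁻¹ * d'.s a) * d'.s b := by
              simp only [map_mul]; group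
          _ = (d.s (d.p (d'.s b)))⁻¹ * κ a * d'.s b := rfl
          _ = κ a * ((d.s (d.p (d'.s b)))⁻¹ * d'.s b) := by rw [e2]; group
          _ = κ a * κ b := rfl }
  have t1 : ∀ γ, κ γ = 1 := perf_trivial hΓ.perf θ (fun a b => k2 a (κ b) (k1 b))
  have t2 : ∀ γ, d'.s γ = d.s (d.p (d'.s γ)) := by
    intro γ
    have e1 : (d.s (d.p (d'.s γ)))⁻¹ * d'.s γ = 1 := t1 γ
    exact (inv_mul_eq_one.1 e1).symm
  apply le_antisymm
  · rintro _ ⟨γ, rfl⟩
    obtain ⟨δ, hδ⟩ := h γ
    refine ⟨δ, ?_⟩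
    rw [t2 δ]
    exact congrArg d.s hδ
  · rintro _ ⟨γ, rfl⟩
    exact ⟨_, (t2 γ).symm⟩

/-- **finiteness of the number of factors** -/
lemma factors_finite (hΓ : Good Γ) (hfg : Group.FG G) : (factors Γ G).Finite := by
  classical
  obtain ⟨F, _, _, φ, hφ⟩ := hΓ.fin
  haveI := finite_hom hfg F
  have hinj : Injective (fun M : factors Γ G => φ.comp (Classical.choose M.2).p) := by
    intro M M' h
    have h1 := Classical.choose_spec M.2
    have h2 := Classical.choose_spec M'.2
    set d := Classical.choose M.2 with hd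
    set d' := Classical.choose M'.2 with hd'
    rcases Split.eq_or hΓ d d' with h3 | h3
    · exfalso
      apply hφ
      ext γ
      have e1 : (φ.comp d.p) (d'.s γ) = (φ.comp d'.p) (d'.s γ) := by
        have : φ.comp d.p = φ.comp d'.p := h
        rw [this]
      simp only [MonoidHom.comp_apply, h3, d'.ps, map_one] at e1
      rw [← e1, MonoidHom.one_apply]
    · exact Subtype.ext (by rw [← h1, ← h2, h3])
  haveI : Finite (factors Γ G) := Finite.of_injective _ hinj
  exact Set.toFinite _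

/-- restriction of a factor of `X × G` to `G` -/
lemma restrict {X : Type} [Group X] (d : Split Γ (X × G)) (h1 : ∀ x, d.p (x, 1) = 1)
    (h2 : ∀ γ, (d.s γ).1 = 1) :
    d.s.range ∈ (Subgroup.map (MonoidHom.inr X G)) '' factors Γ G := by
  have h3 : ∀ x g, d.p (x, g) = d.p (1, g) := by
    intro x g
    have : ((x, g) : X × G) = (x, 1) * (1, g) := by simp
    rw [this, map_mul, h1, one_mul]
  refine ⟨((MonoidHom.snd X G).comp d.s).range,
    ⟨⟨(MonoidHom.snd X G).comp d.s, d.p.comp (MonoidHom.inr X G), ?_, ?_⟩, rfl⟩, ?_⟩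
  · intro γ
    show d.p (1, (d.s γ).2) = γ
    rw [← h3 (d.s γ).1]
    exact d.ps γ
  · intro γ x hx
    have := d.comm γ (1, x) hx
    exact congrArg Prod.snd this
  · ext ⟨x, g⟩
    constructor
    · rintro ⟨_, ⟨γ, rfl⟩, h⟩
      refine ⟨γ, ?_⟩
      rw [← h]
      exact Prod.ext (h2 γ) rfl
    · rintro ⟨γ, h⟩
      refine ⟨(d.s γ).2, ⟨γ, rfl⟩, ?_⟩
      rw [← h]
      exact Prod.ext (h2 γ).symm rfl

/-- extension of a factor of `G` to `X × G` -/
lemma extend {X : Type} [Group X] {M : Subgroup (X × G)}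
    (h : M ∈ (Subgroup.map (MonoidHom.inr X G)) '' factors Γ G) : M ∈ factors Γ (X × G) := by
  obtain ⟨_, ⟨d, rfl⟩, rfl⟩ := h
  refine ⟨⟨(MonoidHom.inr X G).comp d.s, d.p.comp (MonoidHom.snd X G), ?_, ?_⟩, ?_⟩
  · intro γ
    exact d.ps γ
  · rintro γ ⟨x, g⟩ hg
    have h1 := d.comm γ g hg
    exact Prod.ext (by simp) h1
  · rw [MonoidHom.range_comp]

lemma prod_gen {X : Type} [Group X] (g : X × G) :
    ∃ x y, (MonoidHom.inl X G) x * (MonoidHom.inr X G) y = g :=
  ⟨g.1, g.2, by simp⟩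

lemma prod_comm {X : Type} [Group X] (x : X) (y : G) :
    (MonoidHom.inl X G) x * (MonoidHom.inr X G) y
      = (MonoidHom.inr X G) y * (MonoidHom.inl X G) x := by simp

/-- a perfect group without epimorphism to `Γ` contributes nothing -/
lemma factors_other (hΓ : Good Γ) {X : Type} [Group X] (hX : commutator X = ⊤)
    (hno : ∀ f : X →* Γ, ¬ Surjective f) :
    factors Γ (X × G) = (Subgroup.map (MonoidHom.inr X G)) '' factors Γ G := by
  apply Set.Subset.antisymm
  · rintro _ ⟨d, rfl⟩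
    rcases triv_or hΓ hX d.p d.surj (MonoidHom.inl X G) (MonoidHom.inr X G) prod_comm
      prod_gen with h | ⟨h, _⟩
    swap
    · exact absurd h (hno _)
    have h' : ∀ x, d.p (x, 1) = 1 := h
    refine restrict d h' (fun γ => ?_)
    refine perf_trivial hΓ.perf ((MonoidHom.fst X G).comp d.s) (fun a b => ?_) γ
    have := d.comm a ((d.s b).1, 1) (h' _)
    exact congrArg Prod.fst this
  · intro M hM
    exact extend hM

/-- a factor `Γ` contributes one -/
lemma factors_self (hΓ : Good Γ) :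
    factors Γ (Γ × G) = insert (MonoidHom.inl Γ G).range
      ((Subgroup.map (MonoidHom.inr Γ G)) '' factors Γ G) := by
  let d0 : Split Γ (Γ × G) := ⟨MonoidHom.inl Γ G, MonoidHom.fst Γ G, fun _ => rfl, by
    rintro γ ⟨a, g⟩ h
    have h' : a = 1 := h
    subst h'
    simp⟩
  apply Set.Subset.antisymm
  · rintro _ ⟨d, rfl⟩
    rw [Set.mem_insert_iff]
    rcases Split.eq_or hΓ d d0 with h | h
    · rcases Split.eq_or hΓ d0 d with h' | h'
      · exact Or.inr (restrict d h h')
      · exact Or.inl h'.symm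
    · exact Or.inl h
  · intro M hM
    rcases hM with rfl | hM
    · exact ⟨d0, rfl⟩
    · exact extend hM

lemma ncard_other (hΓ : Good Γ) {X : Type} [Group X] (hX : commutator X = ⊤)
    (hno : ∀ f : X →* Γ, ¬ Surjective f) :
    (factors Γ (X × G)).ncard = (factors Γ G).ncard := by
  rw [factors_other hΓ hX hno]
  apply Set.ncard_image_of_injective
  exact Subgroup.map_injective (fun a b h => (Prod.ext_iff.1 h).2)

lemma ncard_self (hΓ : Good Γ) (hfg : Group.FG G) :
    (factors Γ (Γ × G)).ncard = (factors Γ G).ncard + 1 := by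
  have hi : Injective (Subgroup.map (MonoidHom.inr Γ G)) :=
    Subgroup.map_injective (fun a b h => (Prod.ext_iff.1 h).2)
  rw [factors_self hΓ, Set.ncard_insert_of_notMem ?_ ((factors_finite hΓ hfg).image _),
    Set.ncard_image_of_injective _ hi]
  · rintro ⟨M, _, hM⟩
    obtain ⟨F, _, _, φ, hφ⟩ := hΓ.fin
    apply hφ
    ext γ
    have h1 : ((γ, 1) : Γ × G) ∈ (MonoidHom.inl Γ G).range := ⟨γ, rfl⟩
    rw [← hM] at h1
    obtain ⟨g, _, hg⟩ := h1
    have h2 : (1 : Γ) = γ := congrArg Prod.fst hg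
    rw [← h2, map_one, MonoidHom.one_apply]

lemma factors_equiv {G' : Type} [Group G'] (e : G ≃* G') :
    (factors Γ G).ncard = (factors Γ G').ncard := by
  have h1 : ∀ {G G' : Type} [Group G] [Group G'] (e : G ≃* G'),
      (Subgroup.map e.toMonoidHom) '' factors Γ G ⊆ factors Γ G' := by
    intro G G' _ _ e
    rintro _ ⟨_, ⟨d, rfl⟩, rfl⟩
    refine ⟨⟨e.toMonoidHom.comp d.s, d.p.comp e.symm.toMonoidHom, ?_, ?_⟩, ?_⟩
    · intro γ
      show d.p (e.symm (e (d.s γ))) = γ
      rw [e.symm_apply_apply, d.ps]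
    · intro γ x hx
      have := congrArg e (d.comm γ (e.symm x) hx)
      simpa using this
    · rw [MonoidHom.range_comp]
  have h2 : factors Γ G' = (Subgroup.map e.toMonoidHom) '' factors Γ G := by
    apply Set.Subset.antisymm _ (h1 e)
    intro M hM
    refine ⟨M.map e.symm.toMonoidHom, h1 e.symm ⟨M, hM, rfl⟩, ?_⟩
    rw [Subgroup.map_map]
    have : e.toMonoidHom.comp e.symm.toMonoidHom = MonoidHom.id G' := by
      ext x; simp
    rw [this, Subgroup.map_id]
  rw [h2, Set.ncard_image_of_injective]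
  exact Subgroup.map_injective e.injective

/-- **the number of factors of `Λ^i × Γ^j × B`** -/
theorem count (hΓ : Good Γ) (hΓfg : Group.FG Γ) {X : Type} [Group X] (hX : commutator X = ⊤)
    (hno : ∀ f : X →* Γ, ¬ Surjective f) (hfg : Group.FG G) (i j : ℕ) :
    (factors Γ ((Fin i → X) × (Fin j → Γ) × G)).ncard = j + (factors Γ G).ncard := by
  induction i with
  | zero =>
    rw [factors_equiv (zeroE X ((Fin j → Γ) × G))]
    induction j with
    | zero => rw [factors_equiv (zeroE Γ G), zero_add]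
    | succ j ih =>
      rw [factors_equiv (((consE Γ j).prodCongr (MulEquiv.refl G)).trans MulEquiv.prodAssoc),
        ncard_self hΓ inferInstance, ih]
      ring
  | succ i ih =>
    rw [factors_equiv (((consE X i).prodCongr (MulEquiv.refl _)).trans MulEquiv.prodAssoc),
      ncard_other hΓ hX hno, ih]

end split

/-- perfectness is seen by the finite quotients -/
theorem perfect_of_same {A B : Type} [Group A] [Group B] (hfg : Group.FG A) (hs : SameFQ A B)
    (hB : commutator B = ⊤) : commutator A = ⊤ := by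
  by_contra hA
  haveI : Nontrivial (Additive (Abelianization A)) := by
    by_contra hn
    rw [not_nontrivial_iff_subsingleton] at hn
    apply hA
    rw [eq_top_iff]
    intro a _
    have h1 : (Abelianization.of a) = 1 := Additive.ofMul.injective (Subsingleton.elim _ _)
    rw [← MonoidHom.mem_ker, Abelianization.ker_of] at h1
    exact h1
  haveI : Group.FG (Abelianization A) := Group.fg_of_surjective
    (f := (Abelianization.of : A →* Abelianization A)) (QuotientGroup.mk'_surjective _)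
  haveI : AddGroup.FG (Additive (Abelianization A)) := inferInstance
  haveI : Module.Finite ℤ (Additive (Abelianization A)) := Module.Finite.iff_addGroup_fg.2 this
  obtain ⟨N, hN⟩ := IsCoatomic.exists_coatom (Submodule ℤ (Additive (Abelianization A)))
  rw [← isSimpleModule_iff_isCoatom, isSimpleModule_iff_quot_maximal] at hN
  obtain ⟨I, hI, ⟨e⟩⟩ := hN
  haveI : Finite (ℤ ⧸ I) := Ideal.finiteQuotientOfFreeOfNeBot I
    (Ring.ne_bot_of_isMaximal_of_not_isField hI Int.not_isField)
  haveI : Finite (Additive (Abelianization A) ⧸ N) := Finite.of_equiv _ e.symm.toEquiv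
  let Q := Multiplicative (Additive (Abelianization A) ⧸ N)
  haveI : Finite Q := this
  let f : A →* Q := (AddMonoidHom.toMultiplicativeRight (N.mkQ.toAddMonoidHom)).comp
    Abelianization.of
  have hf : Surjective f := by
    intro q
    obtain ⟨x, hx⟩ := N.mkQ_surjective q.toAdd
    obtain ⟨a, ha⟩ := QuotientGroup.mk'_surjective _ x.toMul
    refine ⟨a, ?_⟩
    have : f a = Multiplicative.ofAdd (N.mkQ x) := by
      rw [← ofMul_toMul x, ← ha]
      rfl
    rw [this, hx]
    rfl
  obtain ⟨g, hg⟩ := (hs Q).1 ⟨f, hf⟩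
  have h1 : ∀ q : Q, q = 1 := by
    intro q
    obtain ⟨b, rfl⟩ := hg q
    exact perf_trivial hB g (fun a b => mul_comm _ _) b
  haveI : Nontrivial (Additive (Abelianization A) ⧸ N) := by
    have := e.toEquiv.nontrivial
    exact this
  obtain ⟨x, y, hxy⟩ := exists_pair_ne (Additive (Abelianization A) ⧸ N)
  exact hxy ((h1 (Multiplicative.ofAdd x)).trans (h1 (Multiplicative.ofAdd y)).symm)

end Pool.Agent.Q98.DF
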