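import Mathlib

/-!
# Groups with the same finite quotients: products and the Hopf property
-/

set_option autoImplicit false

namespace Pool.Agent.Q98.DF

open Function

/-- residually finite: every nontrivial element is missed by a subgroup of finite index -/
def RF (G : Type) [Group G] : Prop := ∀ g : G, g ≠ 1 → ∃ H : Subgroup G, H.index ≠ 0 ∧ g ∉ H

/-- the same finite quotients -/
def SameFQ (A B : Type) [Group A] [Group B] : Prop :=
  ∀ (Q : Type) [Group Q] [Finite Q],
    (∃ f : A →* Q, Surjective f) ↔ (∃ f : B →* Q, Surjective f)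

/-- `A` is a finitely generated residually finite group with the same finite quotients as `B` -/
structure InGenus (A B : Type) [Group A] [Group B] : Prop where
  fg : Group.FG A
  rf : RF A
  same : SameFQ A B

section basic

variable {A B C D : Type} [Group A] [Group B] [Group C] [Group D]

lemma SameFQ.refl (A : Type) [Group A] : SameFQ A A := fun _ _ _ => Iff.rfl

lemma SameFQ.symm (h : SameFQ A B) : SameFQ B A := fun Q _ _ => (h Q).symm

lemma SameFQ.trans (h : SameFQ A B) (h' : SameFQ B C) : SameFQ A C :=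
  fun Q _ _ => (h Q).trans (h' Q)

lemma SameFQ.of_equiv (e : A ≃* B) : SameFQ A B := by
  intro Q _ _
  constructor
  · rintro ⟨f, hf⟩
    exact ⟨f.comp e.symm.toMonoidHom, hf.comp e.symm.surjective⟩
  · rintro ⟨f, hf⟩
    exact ⟨f.comp e.toMonoidHom, hf.comp e.surjective⟩

lemma prod_aux (h1 : SameFQ A C) (h2 : SameFQ B D) (Q : Type) [Group Q] [Finite Q]
    (hf : ∃ f : A × B →* Q, Surjective f) : ∃ f : C × D →* Q, Surjective f := by
  obtain ⟨f, hf⟩ := hf
  obtain ⟨g1, hg1⟩ := (h1 (f.comp (MonoidHom.inl A B)).range).1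
    ⟨(f.comp (MonoidHom.inl A B)).rangeRestrict, MonoidHom.rangeRestrict_surjective _⟩
  obtain ⟨g2, hg2⟩ := (h2 (f.comp (MonoidHom.inr A B)).range).1
    ⟨(f.comp (MonoidHom.inr A B)).rangeRestrict, MonoidHom.rangeRestrict_surjective _⟩
  have hc : ∀ (c : C) (d : D), Commute (((f.comp (MonoidHom.inl A B)).range.subtype.comp g1) c)
      (((f.comp (MonoidHom.inr A B)).range.subtype.comp g2) d) := by
    intro c d
    obtain ⟨a, ha⟩ := (g1 c).2
    obtain ⟨b, hb⟩ := (g2 d).2
    show ((g1 c : Q)) * (g2 d : Q) = (g2 d : Q) * (g1 c : Q)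
    rw [← ha, ← hb]
    simp only [MonoidHom.comp_apply, MonoidHom.inl_apply, MonoidHom.inr_apply]
    rw [← map_mul, ← map_mul]
    simp
  refine ⟨MonoidHom.noncommCoprod _ _ hc, fun q => ?_⟩
  obtain ⟨⟨a, b⟩, rfl⟩ := hf q
  obtain ⟨c, hc1⟩ := hg1 ⟨f (a, 1), ⟨a, rfl⟩⟩
  obtain ⟨d, hd1⟩ := hg2 ⟨f (1, b), ⟨b, rfl⟩⟩
  refine ⟨(c, d), ?_⟩
  rw [MonoidHom.noncommCoprod_apply]
  simp only [MonoidHom.comp_apply, hc1, hd1, Subgroup.coe_subtype]
  rw [← map_mul]
  simp

lemma SameFQ.prod (h1 : SameFQ A C) (h2 : SameFQ B D) : SameFQ (A × B) (C × D) :=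
  fun Q _ _ => ⟨prod_aux h1 h2 Q, prod_aux h1.symm h2.symm Q⟩

lemma RF.of_injective (f : A →* B) (hf : Injective f) (h : RF B) : RF A := by
  intro a ha
  have h1 : f a ≠ 1 := fun h2 => ha (hf (by rw [h2, map_one]))
  obtain ⟨H, hH, hH2⟩ := h _ h1
  refine ⟨H.comap f, ?_, hH2⟩
  rw [Subgroup.index_comap]
  intro h3
  have h4 := Subgroup.relIndex_eq_zero_of_le_right (le_top : f.range ≤ ⊤) h3
  rw [Subgroup.relIndex_top_right] at h4
  exact hH h4

lemma RF.comap_missing (f : A →* B) {a : A} {H : Subgroup B} (hH : H.index ≠ 0) (ha : f a ∉ H) :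
    ∃ H' : Subgroup A, H'.index ≠ 0 ∧ a ∉ H' := by
  refine ⟨H.comap f, ?_, ha⟩
  rw [Subgroup.index_comap]
  intro h3
  have h4 := Subgroup.relIndex_eq_zero_of_le_right (le_top : f.range ≤ ⊤) h3
  rw [Subgroup.relIndex_top_right] at h4
  exact hH h4

lemma RF.prod (hA : RF A) (hB : RF B) : RF (A × B) := by
  rintro ⟨a, b⟩ hab
  by_cases ha : a = 1
  · have hb : b ≠ 1 := fun hb => hab (by rw [ha, hb]; rfl)
    obtain ⟨H, hH, hH2⟩ := hB b hb
    exact RF.comap_missing (MonoidHom.snd A B) hH hH2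
  · obtain ⟨H, hH, hH2⟩ := hA a ha
    exact RF.comap_missing (MonoidHom.fst A B) hH hH2

lemma RF.pi {k : ℕ} (hA : RF A) : RF (Fin k → A) := by
  intro a ha
  obtain ⟨i, hi⟩ : ∃ i, a i ≠ 1 := by
    by_contra h
    push Not at h
    exact ha (funext h)
  obtain ⟨H, hH, hH2⟩ := hA (a i) hi
  exact RF.comap_missing (Pi.evalMonoidHom (fun _ : Fin k => A) i) hH hH2

/-- `G^(k+1) = G × G^k` -/
def consE (G : Type) [Group G] (k : ℕ) : (Fin (k + 1) → G) ≃* G × (Fin k → G) where
  toFun f := (f 0, fun i => f i.succ)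
  invFun p := Fin.cons p.1 p.2
  left_inv f := by
    funext i
    refine Fin.cases ?_ (fun i => ?_) i <;> simp
  right_inv p := by simp
  map_mul' f g := rfl

/-- `G^0 × B = B` -/
def zeroE (G B : Type) [Group G] [Group B] : (Fin 0 → G) × B ≃* B where
  toFun p := p.2
  invFun b := (1, b)
  left_inv p := Prod.ext (Subsingleton.elim _ _) rfl
  right_inv b := rfl
  map_mul' p q := rfl

lemma SameFQ.pi (h : SameFQ A B) : ∀ k : ℕ, SameFQ (Fin k → A) (Fin k → B)
  | 0 => SameFQ.of_equiv
      { toFun := fun _ => 1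
        invFun := fun _ => 1
        left_inv := fun _ => Subsingleton.elim _ _
        right_inv := fun _ => Subsingleton.elim _ _
        map_mul' := fun _ _ => Subsingleton.elim _ _ }
  | k + 1 => (SameFQ.of_equiv (consE A k)).trans
      ((h.prod (SameFQ.pi h k)).trans (SameFQ.of_equiv (consE B k)).symm)

/-- `G^(i+j) = G^i × G^j` -/
def appE (G : Type) [Group G] (i j : ℕ) : (Fin (i + j) → G) ≃* (Fin i → G) × (Fin j → G) where
  toFun f := (fun a => f (Fin.castAdd j a), fun b => f (Fin.natAdd i b))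
  invFun p := Fin.append p.1 p.2
  left_inv f := by
    funext x
    refine Fin.addCases (fun a => ?_) (fun b => ?_) x
    · simp
    · simp
  right_inv p := by
    apply Prod.ext
    · funext a; simp
    · funext b; simp
  map_mul' f g := rfl

/-- the homomorphisms from a finitely generated group to a finite group are finite in number -/
lemma finite_hom (hfg : Group.FG A) (F : Type) [Group F] [Finite F] : Finite (A →* F) := by
  obtain ⟨S, hS⟩ := Group.fg_def.1 hfg
  refine Finite.of_injective (fun (φ : A →* F) (x : S) => φ x) ?_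
  intro φ ψ h
  refine MonoidHom.eq_of_eqOn_dense hS (fun x hx => ?_)
  exact congrFun h ⟨x, hx⟩

/-- all homomorphisms to `F` at once -/
def rho (A F : Type) [Group A] [Group F] : A →* ((A →* F) → F) where
  toFun x φ := φ x
  map_one' := by funext φ; exact map_one φ
  map_mul' x y := by funext φ; exact map_mul φ x y

lemma mem_ker_rho {F : Type} [Group F] {x : A} : x ∈ (rho A F).ker ↔ ∀ φ : A →* F, φ x = 1 := by
  rw [MonoidHom.mem_ker]
  exact ⟨fun h φ => congrFun h φ, fun h => funext h⟩

/-- **Hopf property in a genus.** -/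
theorem hopf (hfg : Group.FG A) (hrf : RF A) (hs : SameFQ A B) (f : A →* B)
    (hf : Surjective f) : Injective f := by
  rw [injective_iff_map_eq_one]
  intro g hg
  by_contra hg1
  obtain ⟨H, hH, hgH⟩ := hrf g hg1
  haveI : H.FiniteIndex := ⟨hH⟩
  set N := H.normalCore with hN
  let F := A ⧸ N
  haveI : Finite F := Subgroup.finite_quotient_of_finiteIndex
  haveI hfin : Finite (A →* F) := finite_hom hfg F
  have hfgB : Group.FG B := Group.fg_of_surjective hf
  haveI hfinB : Finite (B →* F) := finite_hom hfgB F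
  obtain ⟨h, hh⟩ := (hs (rho A F).range).1
    ⟨(rho A F).rangeRestrict, MonoidHom.rangeRestrict_surjective _⟩
  have e1 : (rho A F).ker.index = h.ker.index := by
    rw [Subgroup.index_ker, Subgroup.index_ker, MonoidHom.range_eq_top.2 hh]
    exact (Nat.card_congr (Equiv.Set.univ _)).symm
  have e2 : (rho B F).ker ≤ h.ker := by
    intro y hy
    rw [mem_ker_rho] at hy
    rw [MonoidHom.mem_ker]
    apply Subtype.ext
    funext φ
    exact hy (((Pi.evalMonoidHom _ φ).comp ((rho A F).range.subtype)).comp h)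
  have e3 : (rho B F).ker.index ≠ 0 := by
    rw [Subgroup.index_ker]
    exact Nat.card_pos.ne'
  have e4 : h.ker.index ≤ (rho B F).ker.index :=
    Nat.le_of_dvd (Nat.pos_of_ne_zero e3) (Subgroup.index_dvd_of_le e2)
  have e5 : ((rho B F).ker.comap f).index = (rho B F).ker.index :=
    Subgroup.index_comap_of_surjective _ hf
  have e6 : (rho A F).ker ≤ (rho B F).ker.comap f := by
    intro x hx
    rw [mem_ker_rho] at hx
    rw [Subgroup.mem_comap, mem_ker_rho]
    exact fun φ => hx (φ.comp f)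
  have e7 := Subgroup.relIndex_mul_index e6
  have e8 : (rho A F).ker.index ≠ 0 := by
    rw [Subgroup.index_ker]
    exact Nat.card_pos.ne'
  have e9 : (rho A F).ker.relIndex ((rho B F).ker.comap f) = 1 := by
    rw [e5] at e7
    rw [← e1, ← e7] at e4
    have h1 : (rho A F).ker.relIndex ((rho B F).ker.comap f) ≠ 0 := by
      intro h0
      rw [h0, zero_mul] at e7
      exact e8 e7.symm
    have h2 := Nat.pos_of_ne_zero e3
    nlinarith [Nat.pos_of_ne_zero h1]
  rw [Subgroup.relIndex_eq_one] at e9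
  have e10 : g ∈ (rho A F).ker := by
    apply e9
    rw [Subgroup.mem_comap, hg]
    exact Subgroup.one_mem _
  rw [mem_ker_rho] at e10
  have e11 := e10 (QuotientGroup.mk' N)
  rw [QuotientGroup.mk'_apply, QuotientGroup.eq_one_iff] at e11
  exact hgH (H.normalCore_le e11)

end basic

end Pool.Agent.Q98.DF
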